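import Mathlib

/-!
# MP_aafbbc_al : an indecomposable 2-group realizable in characteristic `2^8` but not in
characteristic `2`

`R` is the ring of the matrices `[[a, b], [e, d]]` over `ℤ/256` with `e` even and `a ≡ d` modulo
`2`, and `G = Rˣ`.
-/

namespace Pool.Agent.Results.MP_aafbbc_al.IndecomposableCharFour

open Matrix

/-- The group `G` is realizable in characteristic `n`: it is isomorphic to the unit group of a
finite ring of characteristic `n`. -/
def Realizable (G : Type) [Group G] (n : ℕ) : Prop :=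
  ∃ (R : Type) (_ : Ring R), Finite R ∧ CharP R n ∧ Nonempty (Rˣ ≃* G)

/-- The group `G` is indecomposable: it is not isomorphic to a direct product of two nontrivial
groups. -/
def Indecomposable (G : Type) [Group G] : Prop :=
  ∀ (A B : Type) [Group A] [Group B], Nonempty (G ≃* A × B) → Subsingleton A ∨ Subsingleton B

/-- `ℤ/256`. -/
abbrev Z : Type := ZMod 256

/-- The ring `R`. -/
def R : Subring (Matrix (Fin 2) (Fin 2) Z) where
  carrier := {M | (∃ c, M 1 0 = 2 * c) ∧ ∃ k, M 0 0 = M 1 1 + 2 * k}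
  mul_mem' := by
    rintro M N ⟨⟨c, hc⟩, ⟨k, hk⟩⟩ ⟨⟨c', hc'⟩, ⟨k', hk'⟩⟩
    constructor
    · refine ⟨c * N 0 0 + M 1 1 * c', ?_⟩
      simp only [Matrix.mul_apply, Fin.sum_univ_two, hc, hc']
      ring
    · refine ⟨M 0 1 * c' - c * N 0 1 + M 1 1 * k' + k * N 1 1 + 2 * k * k', ?_⟩
      simp only [Matrix.mul_apply, Fin.sum_univ_two, hc, hc', hk, hk']
      ring
  one_mem' := by
    constructor
    · exact ⟨0, by simp⟩
    · exact ⟨0, by simp⟩
  add_mem' := by
    rintro M N ⟨⟨c, hc⟩, ⟨k, hk⟩⟩ ⟨⟨c', hc'⟩, ⟨k', hk'⟩⟩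
    constructor
    · exact ⟨c + c', by rw [Matrix.add_apply, hc, hc']; ring⟩
    · exact ⟨k + k', by rw [Matrix.add_apply, Matrix.add_apply, hk, hk']; ring⟩
  zero_mem' := by
    constructor
    · exact ⟨0, by simp⟩
    · exact ⟨0, by simp⟩
  neg_mem' := by
    rintro M ⟨⟨c, hc⟩, ⟨k, hk⟩⟩
    constructor
    · exact ⟨-c, by rw [Matrix.neg_apply, hc]; ring⟩
    · exact ⟨-k, by rw [Matrix.neg_apply, Matrix.neg_apply, hk]; ring⟩

/-- The group `G`. -/
abbrev G : Type := Rˣ

/-- The matrix of an element of `G`. -/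
def mat (g : G) : Matrix (Fin 2) (Fin 2) Z := ((g : R) : Matrix (Fin 2) (Fin 2) Z)

theorem mat_mul (g h : G) : mat (g * h) = mat g * mat h := rfl

theorem mat_one : mat 1 = 1 := rfl

theorem mat_injective : Function.Injective mat := by
  intro g h hgh
  exact Units.ext (Subtype.ext hgh)

theorem mat_pow (g : G) (n : ℕ) : mat (g ^ n) = mat g ^ n := by
  induction n with
  | zero => rw [pow_zero, pow_zero, mat_one]
  | succ n ih => rw [pow_succ, pow_succ, mat_mul, ih]

/-- Units of `R` from a matrix and its inverse. -/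
def mk (M N : Matrix (Fin 2) (Fin 2) Z) (hM : M ∈ R) (hN : N ∈ R) (h1 : M * N = 1)
    (h2 : N * M = 1) : G := ⟨⟨M, hM⟩, ⟨N, hN⟩, Subtype.ext h1, Subtype.ext h2⟩

/-- `X t = [[1, t], [0, 1]]`. -/
def X (t : Z) : G := mk !![1, t; 0, 1] !![1, -t; 0, 1]
  ⟨⟨0, by simp⟩, ⟨0, by simp⟩⟩ ⟨⟨0, by simp⟩, ⟨0, by simp⟩⟩
  (by simp [Matrix.one_fin_two]) (by simp [Matrix.one_fin_two])

/-- `Y s = [[1, 0], [2 s, 1]]`. -/
def Y (s : Z) : G := mk !![1, 0; 2 * s, 1] !![1, 0; -(2 * s), 1]
  ⟨⟨s, by simp⟩, ⟨0, by simp⟩⟩ ⟨⟨-s, by simp⟩, ⟨0, by simp⟩⟩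
  (by simp [Matrix.one_fin_two]) (by simp [Matrix.one_fin_two])

theorem mat_X (t : Z) : mat (X t) = !![1, t; 0, 1] := rfl

theorem mat_Y (s : Z) : mat (Y s) = !![1, 0; 2 * s, 1] := rfl

/-- Odd elements are units. -/
theorem exists_inv (c : Z) : ∃ v : Z, (1 + 2 * c) * v = 1 := by
  have h : IsNilpotent (2 * c) := ⟨8, by
    rw [mul_pow]
    have : (2 : Z) ^ 8 = 0 := by decide
    rw [this, zero_mul]⟩
  obtain ⟨u, hu⟩ := h.isUnit_one_add
  exact ⟨(u⁻¹ : Zˣ), by rw [← hu, Units.mul_inv]⟩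

/-- `Dg = diag(1, p)` for an odd `p` with inverse `v`. -/
def Dg (c v : Z) (h : (1 + 2 * c) * v = 1) : G := mk !![1, 0; 0, 1 + 2 * c] !![1, 0; 0, v]
  ⟨⟨0, by simp⟩, ⟨-c, by simp⟩⟩ ⟨⟨0, by simp⟩, ⟨c * v, by simp; linear_combination -h⟩⟩
  (by simp [Matrix.one_fin_two, h])
  (by simp [Matrix.one_fin_two, mul_comm v, h])

theorem mat_Dg (c v : Z) (h : (1 + 2 * c) * v = 1) : mat (Dg c v h) = !![1, 0; 0, 1 + 2 * c] := rfl

theorem X_add (s t : Z) : X s * X t = X (s + t) := by
  apply mat_injective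
  rw [mat_mul, mat_X, mat_X, mat_X, Matrix.mul_fin_two]
  simp [add_comm]

theorem Y_add (s t : Z) : Y s * Y t = Y (s + t) := by
  apply mat_injective
  rw [mat_mul, mat_Y, mat_Y, mat_Y, Matrix.mul_fin_two]
  simp [mul_add]

/-- The form of the central elements gives that they are squares up to commutators. -/
theorem central_square {B : Type} [Group B] (hB : ∀ x y : B, x * y = y * x) (ψ : G →* B) (z : G)
    (c q : Z) (hz : mat z = !![1 + 2 * c, 2 * q; 0, 1 + 2 * c]) : ∃ w : B, ψ z = w ^ 2 := by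
  obtain ⟨v, hv⟩ := exists_inv c
  have hz' : z = Y (-(c * v)) * X 1 * Y c * X (-v) * (Dg c v hv) ^ 2 * X (2 * q * v) := by
    apply mat_injective
    rw [hz, pow_two]
    simp only [mat_mul, mat_X, mat_Y, mat_Dg, Matrix.mul_fin_two]
    ext i j
    fin_cases i <;> fin_cases j <;> simp
    · linear_combination (-2 * q + (1 + 2 * c) ^ 2) * hv
    · linear_combination (2 * c) * hv
    · linear_combination (-(1 + 2 * c) + (1 + 2 * c) ^ 2 + 4 * c * q * v -
        2 * c * v * (1 + 2 * c) ^ 2) * hv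
  have e1 : Y (-(c * v)) * Y c = Y (c * c * v) ^ 2 := by
    rw [pow_two, Y_add, Y_add]
    congr 1
    linear_combination -c * hv
  have e2 : X 1 * X (-v) = X (c * v) ^ 2 := by
    rw [pow_two, X_add, X_add]
    congr 1
    linear_combination -hv
  have e3 : X (2 * q * v) = X (q * v) ^ 2 := by
    rw [pow_two, X_add]
    congr 1
    ring
  refine ⟨ψ (Y (c * c * v)) * ψ (X (c * v)) * ψ (Dg c v hv) * ψ (X (q * v)), ?_⟩
  have e1' := congrArg ψ e1
  have e2' := congrArg ψ e2
  have e3' := congrArg ψ e3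
  rw [map_mul, map_pow] at e1' e2'
  rw [map_pow] at e3'
  rw [hz', map_mul, map_mul, map_mul, map_mul, map_mul, map_pow, e3']
  calc ψ (Y (-(c * v))) * ψ (X 1) * ψ (Y c) * ψ (X (-v)) * ψ (Dg c v hv) ^ 2 * ψ (X (q * v)) ^ 2
      = (ψ (Y (-(c * v))) * ψ (Y c)) * (ψ (X 1) * ψ (X (-v))) * ψ (Dg c v hv) ^ 2 *
        ψ (X (q * v)) ^ 2 := by
          rw [mul_assoc (ψ (Y (-(c * v)))) (ψ (X 1)), hB (ψ (X 1)) (ψ (Y c))]
          simp only [mul_assoc]
    _ = _ := by
      rw [e1', e2']
      generalize ψ (Y (c * c * v)) = α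
      generalize ψ (X (c * v)) = β
      generalize ψ (Dg c v hv) = γ
      generalize ψ (X (q * v)) = δ
      have h1 : Commute α β := hB _ _
      have h2 : Commute (α * β) γ := hB _ _
      have h3 : Commute (α * β * γ) δ := hB _ _
      rw [h3.mul_pow, h2.mul_pow, h1.mul_pow]

/-- Membership data. -/
theorem mem_data (g : G) : (∃ c, mat g 1 0 = 2 * c) ∧ ∃ k, mat g 0 0 = mat g 1 1 + 2 * k :=
  (g : R).2

theorem odd_or_even (x : Z) : (∃ c, x = 2 * c) ∨ ∃ c, x = 1 + 2 * c := by
  rcases Nat.even_or_odd' x.val with ⟨c, hc | hc⟩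
  · left
    refine ⟨c, ?_⟩
    have := ZMod.natCast_zmod_val x
    rw [← this, hc]
    push_cast
    ring
  · right
    refine ⟨c, ?_⟩
    have := ZMod.natCast_zmod_val x
    rw [← this, hc]
    push_cast
    ring

/-- Reduction modulo `2`. -/
def red : Z →+* ZMod 2 := ZMod.castHom (by norm_num) (ZMod 2)

theorem red_two (c : Z) : red (2 * c) = 0 := by
  rw [map_mul]
  have : red 2 = 0 := by decide
  rw [this, zero_mul]

theorem red_odd (c : Z) : red (1 + 2 * c) = 1 := by
  rw [map_add, red_two, map_one, add_zero]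

theorem diag_odd (g : G) : (∃ c, mat g 0 0 = 1 + 2 * c) ∧ ∃ c, mat g 1 1 = 1 + 2 * c := by
  obtain ⟨⟨c, hc⟩, ⟨k, hk⟩⟩ := mem_data g
  have h1 : mat g * mat g⁻¹ = 1 := by rw [← mat_mul, mul_inv_cancel, mat_one]
  have h2 := congrArg Matrix.det h1
  rw [Matrix.det_mul, Matrix.det_one, Matrix.det_fin_two (mat g), hc] at h2
  have h3 := congrArg red h2
  rw [map_mul, map_one, map_sub, map_mul, map_mul, red_two, mul_zero, sub_zero] at h3
  constructor
  · rcases odd_or_even (mat g 0 0) with ⟨a, ha⟩ | h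
    · rw [ha, red_two] at h3
      simp at h3
    · exact h
  · rcases odd_or_even (mat g 1 1) with ⟨a, ha⟩ | h
    · rw [ha, red_two] at h3
      simp at h3
    · exact h

theorem red_eq_zero_of_two_mul : ∀ x : Z, 2 * x = 0 → red x = 0 := by decide +kernel

theorem red_congr {x y : Z} (h : 2 * x = 2 * y) : red x = red y := by
  have h1 : red (x - y) = 0 := red_eq_zero_of_two_mul _ (by rw [mul_sub, h, sub_self])
  rw [map_sub, sub_eq_zero] at h1
  exact h1

/-- Half of an even element. -/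
def half (x : Z) : Z := ((x.val / 2 : ℕ) : Z)

theorem two_half : ∀ c : Z, 2 * half (2 * c) = 2 * c := by decide +kernel

/-- `mat g 1 0 = 2 * lw g`. -/
def lw (g : G) : Z := half (mat g 1 0)

theorem two_lw (g : G) : mat g 1 0 = 2 * lw g := by
  obtain ⟨⟨c, hc⟩, -⟩ := mem_data g
  unfold lw
  rw [hc, two_half]

/-- The two characters. -/
def chi1 (g : G) : ZMod 2 := red (mat g 0 1)

/-- The two characters. -/
def chi2 (g : G) : ZMod 2 := red (lw g)

theorem red_diag0 (g : G) : red (mat g 0 0) = 1 := by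
  obtain ⟨⟨c, hc⟩, -⟩ := diag_odd g
  rw [hc, red_odd]

theorem red_diag1 (g : G) : red (mat g 1 1) = 1 := by
  obtain ⟨-, ⟨c, hc⟩⟩ := diag_odd g
  rw [hc, red_odd]

theorem mat_mul_apply (g h : G) (i j : Fin 2) :
    mat (g * h) i j = mat g i 0 * mat h 0 j + mat g i 1 * mat h 1 j := by
  rw [mat_mul, Matrix.mul_apply, Fin.sum_univ_two]

theorem chi1_mul (g h : G) : chi1 (g * h) = chi1 g + chi1 h := by
  unfold chi1
  rw [mat_mul_apply, map_add, map_mul, map_mul, red_diag0, red_diag1, one_mul, mul_one, add_comm]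

theorem chi2_mul (g h : G) : chi2 (g * h) = chi2 g + chi2 h := by
  unfold chi2
  have h1 : 2 * lw (g * h) = 2 * (lw g * mat h 0 0 + mat g 1 1 * lw h) := by
    rw [← two_lw, mat_mul_apply, two_lw g, two_lw h]
    ring
  rw [red_congr h1, map_add, map_mul, map_mul, red_diag0, red_diag1, one_mul, mul_one]

/-- The determinant of the characters. -/
def dt (g h : G) : ZMod 2 := chi1 g * chi2 h - chi1 h * chi2 g

theorem dt_comm {g h : G} (hc : g * h = h * g) : dt g h = 0 := by
  have h1 : mat (g * h) 0 0 = mat (h * g) 0 0 := by rw [hc]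
  rw [mat_mul_apply, mat_mul_apply, two_lw, two_lw] at h1
  have h2 : 2 * (mat g 0 1 * lw h - mat h 0 1 * lw g) = 0 := by linear_combination h1
  have h3 := red_eq_zero_of_two_mul _ h2
  rw [map_sub, map_mul, map_mul] at h3
  exact h3

theorem dt_expand (g h g' h' : G) : dt (g * h) (g' * h') =
    dt g g' + dt h h' + dt g h' + dt h g' := by
  unfold dt
  rw [chi1_mul, chi2_mul, chi1_mul, chi2_mul]
  ring

/-- An element commuting with two independent elements is central. -/
theorem central_form (z g h : G) (hg : z * g = g * z) (hh : z * h = h * z) (hd : dt g h ≠ 0) :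
    ∃ c q : Z, mat z = !![1 + 2 * c, 2 * q; 0, 1 + 2 * c] := by
  set u : Z := mat g 0 1 * lw h - mat h 0 1 * lw g with hu
  have hured : red u ≠ 0 := by
    rw [hu, map_sub, map_mul, map_mul]
    exact hd
  have hodd : ∃ c, u = 1 + 2 * c := by
    rcases odd_or_even u with ⟨c, hc⟩ | h
    · rw [hc, red_two] at hured
      exact absurd rfl hured
    · exact h
  obtain ⟨cu, hcu⟩ := hodd
  obtain ⟨v, hv⟩ := exists_inv cu
  rw [← hcu] at hv
  have cancel : ∀ x : Z, x * u = 0 → x = 0 := by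
    intro x hx
    calc x = x * (u * v) := by rw [hv, mul_one]
      _ = (x * u) * v := by ring
      _ = 0 := by rw [hx, zero_mul]
  have g00 : mat (z * g) 0 0 = mat (g * z) 0 0 := by rw [hg]
  have g01 : mat (z * g) 0 1 = mat (g * z) 0 1 := by rw [hg]
  have h00 : mat (z * h) 0 0 = mat (h * z) 0 0 := by rw [hh]
  have h01 : mat (z * h) 0 1 = mat (h * z) 0 1 := by rw [hh]
  rw [mat_mul_apply, mat_mul_apply] at g00 g01 h00 h01
  rw [two_lw g, two_lw z] at g00
  rw [two_lw h, two_lw z] at h00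
  have hr : 2 * lw z = 0 := by
    apply cancel
    rw [hu]
    linear_combination lw g * h00 - lw h * g00
  have hq : 2 * mat z 0 1 = 0 := by
    apply cancel
    rw [hu]
    linear_combination mat g 0 1 * h00 - mat h 0 1 * g00
  obtain ⟨-, k1, hk1⟩ := mem_data g
  obtain ⟨-, k2, hk2⟩ := mem_data h
  have hps : mat z 0 0 - mat z 1 1 = 0 := by
    apply cancel
    have e1 : mat g 0 1 * (mat z 0 0 - mat z 1 1) = 0 := by
      rw [hk1] at g01
      linear_combination g01 + k1 * hq
    have e2 : mat h 0 1 * (mat z 0 0 - mat z 1 1) = 0 := by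
      rw [hk2] at h01
      linear_combination h01 + k2 * hq
    rw [hu]
    linear_combination lw h * e1 - lw g * e2
  obtain ⟨q, hq'⟩ : ∃ q, mat z 0 1 = 2 * q := by
    rcases odd_or_even (mat z 0 1) with h | ⟨c, hc⟩
    · exact h
    · have := red_eq_zero_of_two_mul _ hq
      rw [hc, red_odd] at this
      exact absurd this (by decide)
  obtain ⟨⟨c, hc⟩, -⟩ := diag_odd z
  refine ⟨c, q, ?_⟩
  ext i j
  fin_cases i <;> fin_cases j
  · exact hc
  · exact hq'
  · show mat z 1 0 = 0
    rw [two_lw, hr]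
  · show mat z 1 1 = 1 + 2 * c
    rw [← hc]
    linear_combination -hps

/-- Elements of the central form commute. -/
theorem form_comm {z z' : G} (hz : ∃ c q : Z, mat z = !![1 + 2 * c, 2 * q; 0, 1 + 2 * c])
    (hz' : ∃ c q : Z, mat z' = !![1 + 2 * c, 2 * q; 0, 1 + 2 * c]) : z * z' = z' * z := by
  obtain ⟨c, q, h⟩ := hz
  obtain ⟨c', q', h'⟩ := hz'
  apply mat_injective
  rw [mat_mul, mat_mul, h, h', Matrix.mul_fin_two, Matrix.mul_fin_two]
  ext i j
  fin_cases i <;> fin_cases j <;> simp <;> ring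

/-- Every element of `G` has order dividing `2 ^ 8`. -/
theorem pow_eq_one (g : G) : g ^ (2 ^ 8) = 1 := by
  have h2 : ∀ j : ℕ, ∃ M : Matrix (Fin 2) (Fin 2) Z,
      mat (g ^ (2 ^ (j + 1))) = 1 + (2 : Z) ^ (j + 1) • M := by
    intro j
    induction j with
    | zero =>
      obtain ⟨⟨c, hc⟩, ⟨d, hd⟩⟩ := diag_odd g
      have he := two_lw g
      refine ⟨!![2 * c + 2 * c * c + mat g 0 1 * lw g, mat g 0 1 * (1 + c + d);
        lw g * (2 + 2 * c + 2 * d), 2 * d + 2 * d * d + mat g 0 1 * lw g], ?_⟩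
      rw [zero_add, pow_one, pow_two]
      ext i j
      rw [mat_mul_apply]
      fin_cases i <;> fin_cases j
      · simp [hc, he]
        ring
      · simp [hc, hd]
        ring
      · simp [hc, hd, he]
        ring
      · simp [hd, he]
        ring
    | succ j ih =>
      obtain ⟨M, hM⟩ := ih
      refine ⟨M + (2 : Z) ^ j • (M * M), ?_⟩
      rw [pow_succ 2 (j + 1), pow_mul, pow_two, mat_mul, hM]
      simp only [add_mul, mul_add, one_mul, mul_one, smul_mul_smul_comm]
      module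
  obtain ⟨M, hM⟩ := h2 7
  apply mat_injective
  have h0 : (2 : Z) ^ (7 + 1) = 0 := by decide
  rw [show (8 : ℕ) = 7 + 1 from rfl, hM, h0, zero_smul, add_zero, mat_one]

theorem card_lt : Nat.card G < 2 ^ 32 := by
  by_contra h
  push Not at h
  have hc : Nat.card (Matrix (Fin 2) (Fin 2) Z) = 2 ^ 32 := by
    show Nat.card (Fin 2 → Fin 2 → ZMod 256) = _
    rw [Nat.card_fun, Nat.card_fun, Nat.card_zmod]
    simp
  have hb : Function.Bijective mat :=
    mat_injective.bijective_of_nat_card_le (by rw [hc]; exact h)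
  obtain ⟨g, hg⟩ := hb.2 0
  have h1 := red_diag0 g
  rw [hg] at h1
  simp at h1

/-- The scalar unit `5`. -/
def five : G := mk !![5, 0; 0, 5] !![205, 0; 0, 205] ⟨⟨0, by simp⟩, ⟨0, by simp⟩⟩
  ⟨⟨0, by simp⟩, ⟨0, by simp⟩⟩ (by decide) (by decide)

theorem mat_five_pow (n : ℕ) : mat (five ^ n) = !![5 ^ n, 0; 0, 5 ^ n] := by
  induction n with
  | zero => simp [mat_one, Matrix.one_fin_two]
  | succ n ih =>
    rw [pow_succ, mat_mul, ih]
    show !![(5 : Z) ^ n, 0; 0, 5 ^ n] * !![5, 0; 0, 5] = _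
    rw [Matrix.mul_fin_two]
    simp [pow_succ]

theorem five_pow_64 : five ^ 64 = 1 := by
  apply mat_injective
  rw [mat_five_pow, mat_one, Matrix.one_fin_two]
  have : (5 : Z) ^ 64 = 1 := by decide
  rw [this]

theorem five_pow_32 : five ^ 32 ≠ 1 := by
  intro h
  have h1 := congrArg mat h
  rw [mat_five_pow, mat_one, Matrix.one_fin_two] at h1
  have h2 := congrFun (congrFun h1 0) 0
  simp at h2
  have : (5 : Z) ^ 32 ≠ 1 := by decide
  exact this h2

/-- A ring of characteristic `2` with a unit of order `64` has at least `2 ^ 32` units. -/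
theorem card_units_ge (S : Type) [Ring S] [Finite S] [CharP S 2] (v : Sˣ) (h64 : v ^ 64 = 1)
    (h32 : v ^ 32 ≠ 1) : 2 ^ 32 ≤ Nat.card Sˣ := by
  have hfact : Fact (Nat.Prime 2) := ⟨Nat.prime_two⟩
  let halg : Algebra (ZMod 2) S := ZMod.algebra S 2
  set x : S := (v : S) - 1 with hx
  have hx64 : x ^ 64 = 0 := by
    have h1 : x ^ (2 ^ 6) = (v : S) ^ (2 ^ 6) - 1 ^ (2 ^ 6) :=
      sub_pow_char_pow_of_commute 2 6 (Commute.one_right _)
    norm_num at h1
    rw [h1, ← Units.val_pow_eq_pow_val, h64, Units.val_one, sub_self]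
  have hx32 : x ^ 32 ≠ 0 := by
    have h1 : x ^ (2 ^ 5) = (v : S) ^ (2 ^ 5) - 1 ^ (2 ^ 5) :=
      sub_pow_char_pow_of_commute 2 5 (Commute.one_right _)
    norm_num at h1
    rw [h1, ← Units.val_pow_eq_pow_val, sub_ne_zero]
    intro h2
    exact h32 (Units.ext (by rw [h2, Units.val_one]))
  have hint : IsIntegral (ZMod 2) x := Algebra.IsIntegral.isIntegral x
  have hmin : ∃ k : ℕ, 32 < k ∧ minpoly (ZMod 2) x = Polynomial.X ^ k := by
    have h1 : minpoly (ZMod 2) x ∣ Polynomial.X ^ 64 := minpoly.dvd _ _ (by simp [hx64])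
    obtain ⟨k, -, hk⟩ := (dvd_prime_pow Polynomial.prime_X 64).1 h1
    have h2 : minpoly (ZMod 2) x = Polynomial.X ^ k :=
      Polynomial.eq_of_monic_of_associated (minpoly.monic hint) (Polynomial.monic_X_pow k) hk
    refine ⟨k, ?_, h2⟩
    by_contra h3
    push Not at h3
    have h4 := minpoly.aeval (ZMod 2) x
    rw [h2, map_pow, Polynomial.aeval_X] at h4
    apply hx32
    rw [← Nat.sub_add_cancel h3, pow_add, h4, mul_zero]
  obtain ⟨k, hk, hmk⟩ := hmin
  have hnil : ∀ P : Polynomial (ZMod 2), IsNilpotent (Polynomial.aeval x (Polynomial.X * P)) := by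
    intro P
    rw [map_mul, Polynomial.aeval_X]
    apply Commute.isNilpotent_mul_right
    · have : x * Polynomial.aeval x P = Polynomial.aeval x P * x := by
        have h5 := congrArg (Polynomial.aeval x) (Polynomial.X_mul (p := P))
        rwa [map_mul, map_mul, Polynomial.aeval_X] at h5
      exact this
    · exact ⟨64, hx64⟩
  let F : Polynomial.degreeLT (ZMod 2) 32 → Sˣ := fun P => (hnil P).isUnit_one_add.unit
  have hF : Function.Injective F := by
    intro P Q hPQ
    have h1 : (1 : S) + Polynomial.aeval x (Polynomial.X * (P : Polynomial (ZMod 2))) =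
        1 + Polynomial.aeval x (Polynomial.X * (Q : Polynomial (ZMod 2))) := congrArg Units.val hPQ
    have h2 : Polynomial.aeval x (Polynomial.X * ((P : Polynomial (ZMod 2)) - (Q : Polynomial (ZMod 2)))) = 0 := by
      rw [mul_sub, map_sub, sub_eq_zero]
      exact add_left_cancel h1
    by_contra hne
    have h3 : ((P : Polynomial (ZMod 2)) - (Q : Polynomial (ZMod 2))) ≠ 0 := by
      rw [sub_ne_zero]
      intro h
      exact hne (Subtype.ext h)
    have h4 : Polynomial.X * ((P : Polynomial (ZMod 2)) - (Q : Polynomial (ZMod 2))) ≠ 0 :=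
      mul_ne_zero Polynomial.X_ne_zero h3
    have h5 := minpoly.degree_le_of_ne_zero (ZMod 2) x h4 h2
    rw [hmk, Polynomial.degree_X_pow, Polynomial.degree_mul, Polynomial.degree_X] at h5
    have h6 : ((P : Polynomial (ZMod 2)) - (Q : Polynomial (ZMod 2))).degree < (32 : ℕ) :=
      Polynomial.mem_degreeLT.1 (sub_mem P.2 Q.2)
    have h7 : ((P : Polynomial (ZMod 2)) - (Q : Polynomial (ZMod 2))).degree =
        (((P : Polynomial (ZMod 2)) - (Q : Polynomial (ZMod 2))).natDegree : WithBot ℕ) := Polynomial.degree_eq_natDegree h3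
    rw [h7] at h5 h6
    have h8 : k ≤ 1 + ((P : Polynomial (ZMod 2)) - (Q : Polynomial (ZMod 2))).natDegree := by exact_mod_cast h5
    have h9 : ((P : Polynomial (ZMod 2)) - (Q : Polynomial (ZMod 2))).natDegree < 32 := by exact_mod_cast h6
    omega
  have h10 := Nat.card_le_card_of_injective F hF
  rw [Nat.card_congr (Polynomial.degreeLTEquiv (ZMod 2) 32).toEquiv, Nat.card_fun, Nat.card_zmod,
    Nat.card_fin] at h10
  exact h10

theorem not_realizable : ¬ Realizable G 2 := by
  rintro ⟨S, hS, hfin, hchar, ⟨e⟩⟩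
  have h1 : (e.symm five) ^ 64 = 1 := by rw [← map_pow, five_pow_64, map_one]
  have h2 : (e.symm five) ^ 32 ≠ 1 := by
    rw [← map_pow]
    intro h
    exact five_pow_32 (e.symm.injective (h.trans (map_one _).symm))
  have h3 := card_units_ge S (e.symm five) h1 h2
  rw [Nat.card_congr e.toEquiv] at h3
  exact absurd card_lt (not_lt.2 h3)

theorem realizable : Realizable G (2 ^ 8) := by
  refine ⟨R, inferInstance, inferInstance, ?_, ⟨MulEquiv.refl _⟩⟩
  constructor
  intro n
  rw [show (2 ^ 8 : ℕ) = 256 by norm_num, ← CharP.cast_eq_zero_iff Z 256 n]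
  constructor
  · intro h
    have h1 : ((n : R) : Matrix (Fin 2) (Fin 2) Z) 0 0 = 0 := by rw [h]; rfl
    rw [Subring.coe_natCast, Matrix.natCast_apply] at h1
    simpa using h1
  · intro h
    apply Subtype.ext
    rw [Subring.coe_natCast, Subring.coe_zero]
    ext i j
    rw [Matrix.natCast_apply]
    simp [h]

theorem dt_XY : dt (X 1) (Y 1) ≠ 0 := by
  show red 1 * red (half (2 * 1)) - red 0 * red (half 0) ≠ 0
  decide

/-- If the first factor contains two independent elements then the second factor is trivial. -/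
theorem factor_trivial {A B : Type} [Group A] [Group B] (e : G ≃* A × B) (a a' : A)
    (h : dt (e.symm (a, 1)) (e.symm (a', 1)) ≠ 0) : Subsingleton B := by
  have hform : ∀ b : B, ∃ c q : Z, mat (e.symm (1, b)) = !![1 + 2 * c, 2 * q; 0, 1 + 2 * c] := by
    intro b
    apply central_form _ _ _ _ _ h
    · rw [← map_mul, ← map_mul]; simp
    · rw [← map_mul, ← map_mul]; simp
  have hB : ∀ x y : B, x * y = y * x := by
    intro x y
    have h1 := form_comm (hform x) (hform y)
    rw [← map_mul, ← map_mul] at h1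
    have h2 := congrArg Prod.snd (e.symm.injective h1)
    simpa using h2
  have hsq : ∀ b : B, ∃ w : B, b = w ^ 2 := by
    intro b
    obtain ⟨c, q, hcq⟩ := hform b
    obtain ⟨w, hw⟩ := central_square hB ((MonoidHom.snd A B).comp e.toMonoidHom) _ c q hcq
    refine ⟨w, ?_⟩
    rw [← hw]
    simp
  have hfinB : Finite B := Finite.of_surjective (fun g : G => (e g).2) (by
    intro b
    exact ⟨e.symm (1, b), by simp⟩)
  have hsurj : Function.Surjective (fun w : B => w ^ 2) := fun b => by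
    obtain ⟨w, hw⟩ := hsq b
    exact ⟨w, hw.symm⟩
  have hinj : Function.Injective (fun w : B => w ^ 2) := Finite.injective_iff_surjective.2 hsurj
  have hpow : ∀ b : B, b ^ (2 ^ 8) = 1 := by
    intro b
    have h1 := pow_eq_one (e.symm (1, b))
    rw [← map_pow] at h1
    have h2 : ((1, b) : A × B) ^ (2 ^ 8) = 1 := by simpa using h1
    exact congrArg Prod.snd h2
  have hdown : ∀ n : ℕ, ∀ b : B, b ^ (2 ^ n) = 1 → b = 1 := by
    intro n
    induction n with
    | zero => intro b hb; simpa using hb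
    | succ n ih =>
      intro b hb
      rw [pow_succ, pow_mul] at hb
      apply ih b
      apply hinj
      simpa using hb
  exact ⟨fun x y => by rw [hdown 8 x (hpow x), hdown 8 y (hpow y)]⟩

theorem indecomposable : Indecomposable G := by
  intro A B _ _ ⟨e⟩
  obtain ⟨a, b, hab⟩ : ∃ (a : A) (b : B), e (X 1) = (a, b) := ⟨_, _, rfl⟩
  obtain ⟨a', b', hab'⟩ : ∃ (a' : A) (b' : B), e (Y 1) = (a', b') := ⟨_, _, rfl⟩
  have h1 : X 1 = e.symm (a, 1) * e.symm (1, b) := by
    rw [← map_mul, Prod.mk_mul_mk, mul_one, one_mul, ← hab, MulEquiv.symm_apply_apply]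
  have h2 : Y 1 = e.symm (a', 1) * e.symm (1, b') := by
    rw [← map_mul, Prod.mk_mul_mk, mul_one, one_mul, ← hab', MulEquiv.symm_apply_apply]
  have h3 := dt_XY
  rw [h1, h2, dt_expand] at h3
  have h4 : dt (e.symm (a, 1)) (e.symm (1, b')) = 0 := by
    apply dt_comm
    rw [← map_mul, ← map_mul]
    simp
  have h5 : dt (e.symm (1, b)) (e.symm (a', 1)) = 0 := by
    apply dt_comm
    rw [← map_mul, ← map_mul]
    simp
  rw [h4, h5, add_zero, add_zero] at h3
  by_cases h6 : dt (e.symm (a, 1)) (e.symm (a', 1)) = 0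
  · left
    rw [h6, zero_add] at h3
    exact factor_trivial (e.trans MulEquiv.prodComm) b b' h3
  · right
    exact factor_trivial e a a' h6

/-- **An indecomposable 2-group realizable in characteristic `2^m`, `m ≥ 2`, but not in
characteristic `2`.** (Here `m = 8`.) -/
theorem result : ∃ (G : Type) (_ : Group G), Finite G ∧ Nontrivial G ∧ IsPGroup 2 G ∧
    Indecomposable G ∧ (∃ m : ℕ, 2 ≤ m ∧ Realizable G (2 ^ m)) ∧ ¬ Realizable G 2 := by
  refine ⟨G, inferInstance, inferInstance, ?_, fun g => ⟨8, pow_eq_one g⟩, indecomposable,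
    ⟨8, by norm_num, realizable⟩, not_realizable⟩
  refine ⟨five, 1, ?_⟩
  intro h
  exact five_pow_32 (by rw [h, one_pow])

end Pool.Agent.Results.MP_aafbbc_al.IndecomposableCharFour
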